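import Pool.Agent.Helper25.GF.Goals

/-!
# Project GF (MP_766b49_co): the choice of the constants
-/

set_option autoImplicit false

namespace Pool.Agent.Helper60.GF

open Finset Filter Pool.Agent.Helper25.GF

theorem exp_half_le : Real.exp (1 / 2) ≤ 2 := by
  have h1 : Real.exp (1 / 2) ^ 2 = Real.exp 1 := by
    rw [← Real.exp_nat_mul]
    norm_num
  have h2 := Real.exp_one_lt_d9
  have h3 := Real.exp_pos (1 / 2 : ℝ)
  nlinarith

theorem gPAR : PAR := by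
  intro θ ε hθ0 hθ1 hε
  obtain ⟨a, ha⟩ : ∃ a : ℝ, a = 1 - θ := ⟨_, rfl⟩
  have ha0 : 0 < a := by linarith
  have ha1 : a ≤ 1 := by linarith
  obtain ⟨δ, hδ0, hδ4, hδε⟩ : ∃ δ : ℝ, 0 < δ ∧ δ ≤ 1 / 4 ∧ 1 ≤ (1 - δ) ^ 2 * (1 + ε) := by
    refine ⟨min (1 / 4) (ε / (2 * (1 + ε))), lt_min (by norm_num) (by positivity),
      min_le_left _ _, ?_⟩
    have h1 : min (1 / 4) (ε / (2 * (1 + ε))) ≤ ε / (2 * (1 + ε)) := min_le_right _ _
    have h2 : min (1 / 4) (ε / (2 * (1 + ε))) * (2 * (1 + ε)) ≤ ε := by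
      rwa [le_div_iff₀ (by positivity)] at h1
    have h3 : 0 ≤ (min (1 / 4) (ε / (2 * (1 + ε)))) ^ 2 * (1 + ε) :=
      mul_nonneg (sq_nonneg _) (by linarith)
    nlinarith
  obtain ⟨m, hm⟩ : ∃ m : ℕ, (1 - δ / 4) ^ m < δ / 2 :=
    exists_pow_lt_of_lt_one (by positivity) (by linarith)
  obtain ⟨η, hη0, hηδ, hηm⟩ : ∃ η : ℝ, 0 < η ∧ η ≤ δ / 4 ∧ 2 * η * (m : ℝ) ^ 2 ≤ 1 / 2 := by
    refine ⟨min (δ / 4) (1 / (4 * ((m : ℝ) ^ 2 + 1))), lt_min (by positivity) (by positivity),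
      min_le_left _ _, ?_⟩
    have h1 : min (δ / 4) (1 / (4 * ((m : ℝ) ^ 2 + 1))) ≤ 1 / (4 * ((m : ℝ) ^ 2 + 1)) :=
      min_le_right _ _
    have h2 : min (δ / 4) (1 / (4 * ((m : ℝ) ^ 2 + 1))) * (4 * ((m : ℝ) ^ 2 + 1)) ≤ 1 := by
      rwa [le_div_iff₀ (by positivity)] at h1
    have h3 : 0 < min (δ / 4) (1 / (4 * ((m : ℝ) ^ 2 + 1))) :=
      lt_min (by positivity) (by positivity)
    nlinarith
  obtain ⟨c, hc⟩ : ∃ c : ℝ, c = η / ((1 - δ) * a) := ⟨_, rfl⟩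
  have h1δ : 0 < 1 - δ := by linarith
  have hc0 : 0 < c := by rw [hc]; positivity
  have hσ : 0 < δ * a / 16 := by positivity
  -- the conditions on L = log d
  have hev : ∀ᶠ L : ℝ in atTop, Real.log L ≤ δ * a / 16 * L ∧ - Real.log c ≤ δ * a / 16 * L ∧
      m * η ≤ 3 * δ / 8 * a * L ∧ 1 ≤ L := by
    have e1 : ∀ᶠ L : ℝ in atTop, Real.log L ≤ δ * a / 16 * L := by
      have h := Real.isLittleO_log_id_atTop.bound hσ
      filter_upwards [h, eventually_ge_atTop (0 : ℝ)] with L hL hL0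
      have h2 := (le_abs_self (Real.log L)).trans hL
      rwa [id, Real.norm_eq_abs, abs_of_nonneg hL0] at h2
    have e2 : ∀ᶠ L : ℝ in atTop, - Real.log c ≤ δ * a / 16 * L := by
      filter_upwards [eventually_ge_atTop (- Real.log c / (δ * a / 16))] with L hL
      rw [div_le_iff₀ hσ] at hL
      linarith
    have e3 : ∀ᶠ L : ℝ in atTop, m * η ≤ 3 * δ / 8 * a * L := by
      have hpos : 0 < 3 * δ / 8 * a := by positivity
      filter_upwards [eventually_ge_atTop (m * η / (3 * δ / 8 * a))] with L hL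
      rw [div_le_iff₀ hpos] at hL
      linarith
    filter_upwards [e1, e2, e3, eventually_ge_atTop (1 : ℝ)] with L h1 h2 h3 h4
    exact ⟨h1, h2, h3, h4⟩
  have hevd : ∀ᶠ d : ℕ in atTop, Real.log (Real.log d) ≤ δ * a / 16 * Real.log d ∧
      - Real.log c ≤ δ * a / 16 * Real.log d ∧ m * η ≤ 3 * δ / 8 * a * Real.log d ∧
      1 ≤ Real.log d :=
    (Real.tendsto_log_atTop.comp tendsto_natCast_atTop_atTop).eventually hev
  obtain ⟨d₀, hd₀⟩ := eventually_atTop.1 hevd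
  refine ⟨m, max d₀ 2, le_max_right _ _, fun d hd => ?_⟩
  obtain ⟨hL1, hL2, hL3, hL4⟩ := hd₀ d ((le_max_left _ _).trans hd)
  have hd2 : 2 ≤ d := (le_max_right _ _).trans hd
  have hdR : (2 : ℝ) ≤ d := by exact_mod_cast hd2
  have hd0 : (0 : ℝ) < d := by linarith
  obtain ⟨L, hL⟩ : ∃ L : ℝ, L = Real.log d := ⟨_, rfl⟩
  rw [← hL] at hL1 hL2 hL3 hL4
  have hLpos : 0 < L := by linarith
  obtain ⟨κ, hκ⟩ : ∃ κ : ℝ, κ = η * (d : ℝ) ^ (-θ) := ⟨_, rfl⟩
  obtain ⟨q, hq⟩ : ∃ q : ℝ, q = (1 - δ) * a * L / d := ⟨_, rfl⟩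
  have hκ0 : 0 < κ := by rw [hκ]; positivity
  have hq0 : 0 < q := by rw [hq]; positivity
  have hκη : κ ≤ η := by
    rw [hκ]
    have h1 : (d : ℝ) ^ (-θ) ≤ 1 :=
      Real.rpow_le_one_of_one_le_of_nonpos (by linarith) (by linarith)
    nlinarith
  have hκδ : κ ≤ δ / 4 := hκη.trans hηδ
  have hratio : κ / q = c * (d : ℝ) ^ a / L := by
    rw [hκ, hq, hc]
    have h1 : (d : ℝ) ^ a = (d : ℝ) ^ (-θ) * d := by
      rw [ha, show (1 : ℝ) - θ = -θ + 1 by ring, Real.rpow_add hd0, Real.rpow_one]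
    rw [h1]
    field_simp
  have hlog : Real.log (κ / q) = Real.log c + a * L - Real.log L := by
    rw [hratio, Real.log_div (by positivity) hLpos.ne',
      Real.log_mul hc0.ne' (by positivity), Real.log_rpow hd0, ← hL]
  have hlog2 : (1 - δ / 8) * a * L ≤ Real.log (κ / q) := by
    rw [hlog]
    nlinarith
  have haL : 0 < a * L := by positivity
  have hlogpos : 0 < Real.log (κ / q) := by
    refine lt_of_lt_of_le ?_ hlog2
    have : 0 < 1 - δ / 8 := by linarith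
    positivity
  have hqκ : q < κ := by
    by_contra h
    push Not at h
    have h1 : κ / q ≤ 1 := (div_le_one hq0).2 h
    have h2 := Real.log_nonpos (by positivity) h1
    linarith
  obtain ⟨D, hD⟩ : ∃ D : ℝ, D = (1 - κ) * Real.log (κ / q) := ⟨_, rfl⟩
  have hD1 : (1 - δ / 4) * ((1 - δ / 8) * a * L) ≤ D := by
    rw [hD]
    exact mul_le_mul (by linarith) hlog2 (by nlinarith) (by linarith)
  have hmκ : m * κ ≤ 3 * δ / 8 * a * L := by
    have h1 : (m : ℝ) * κ ≤ m * η := mul_le_mul_of_nonneg_left hκη (Nat.cast_nonneg m)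
    linarith
  have hkey : (1 - δ) * a * L ≤ (1 - δ / 4) * (D - m * κ) := by
    have h1 : (1 - δ / 4) * ((1 - δ / 8) * a * L) - 3 * δ / 8 * a * L ≤ D - m * κ := by
      linarith
    have h2 : 0 ≤ 1 - δ / 4 := by linarith
    have h3 := mul_le_mul_of_nonneg_left h1 h2
    refine le_trans ?_ h3
    have h4 : (1 - δ / 4) * ((1 - δ / 4) * ((1 - δ / 8) * a * L) - 3 * δ / 8 * a * L) =
        ((1 - δ / 4) * ((1 - δ / 4) * (1 - δ / 8) - 3 * δ / 8)) * (a * L) := by ring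
    rw [h4, mul_assoc (1 - δ) a L]
    refine mul_le_mul_of_nonneg_right ?_ haL.le
    nlinarith [mul_nonneg hδ0.le hδ0.le, mul_nonneg (mul_nonneg hδ0.le hδ0.le) hδ0.le]
  have hDm : 0 < D - m * κ := by
    by_contra h
    push Not at h
    have h1 : (1 - δ / 4) * (D - m * κ) ≤ 0 :=
      mul_nonpos_of_nonneg_of_nonpos (by linarith) h
    have h2 : 0 < (1 - δ) * a * L := by positivity
    linarith
  refine ⟨κ, q, δ, hκ0, by linarith, hq0, hqκ, hδ0.le, by linarith, ?_, ?_, ?_⟩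
  · rw [← hD]
    linarith
  · intro r hr
    rw [← hD]
    have hdq : (d : ℝ) * q = (1 - δ) * a * L := by
      rw [hq]
      field_simp
    have h1 : (d * q) ^ m ≤ ((1 - δ / 4) * (D - m * κ)) ^ m := by
      rw [hdq]
      exact pow_le_pow_left₀ (by positivity) hkey m
    have h2 : ((1 - κ)⁻¹) ^ (r * m ^ 2) ≤ 2 := by
      have hκ' : 0 < 1 - κ := by linarith
      have h3 : (1 - κ)⁻¹ ≤ Real.exp (2 * κ) := by
        have h4 : (1 - κ)⁻¹ ≤ 1 + 2 * κ := by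
          rw [inv_le_iff_one_le_mul₀ hκ']
          nlinarith
        have h5 := Real.add_one_le_exp (2 * κ)
        linarith
      have h6 : ((1 - κ)⁻¹) ^ (r * m ^ 2) ≤ (Real.exp (2 * κ)) ^ (r * m ^ 2) :=
        pow_le_pow_left₀ (inv_nonneg.2 hκ'.le) h3 _
      rw [← Real.exp_nat_mul] at h6
      refine h6.trans ((Real.exp_le_exp.2 ?_).trans exp_half_le)
      push_cast
      have h7 : (r : ℝ) * κ ≤ η := by
        rw [hκ]
        calc (r : ℝ) * (η * (d : ℝ) ^ (-θ)) ≤ (d : ℝ) ^ θ * (η * (d : ℝ) ^ (-θ)) :=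
              mul_le_mul_of_nonneg_right hr (by positivity)
          _ = η * ((d : ℝ) ^ θ * (d : ℝ) ^ (-θ)) := by ring
          _ = η := by
              rw [← Real.rpow_add hd0]
              simp
      have h8 : (r : ℝ) * κ * (2 * (m : ℝ) ^ 2) ≤ η * (2 * (m : ℝ) ^ 2) :=
        mul_le_mul_of_nonneg_right h7 (by positivity)
      nlinarith
    have h0 : 0 ≤ ((1 - δ / 4) * (D - m * κ)) ^ m :=
      pow_nonneg (mul_nonneg (by linarith) hDm.le) m
    calc (d * q) ^ m * ((1 - κ)⁻¹) ^ (r * m ^ 2)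
        ≤ ((1 - δ / 4) * (D - m * κ)) ^ m * 2 := by
          refine mul_le_mul h1 h2 ?_ h0
          exact pow_nonneg (inv_nonneg.2 (by linarith)) _
      _ = (1 - δ / 4) ^ m * 2 * (D - m * κ) ^ m := by rw [mul_pow]; ring
      _ ≤ δ * (D - m * κ) ^ m :=
          mul_le_mul_of_nonneg_right (by linarith) (pow_nonneg hDm.le m)
  · rw [← hL, ← ha]
    have e : ((1 - δ) * q)⁻¹ = ((1 - δ) ^ 2)⁻¹ * (d / (a * L)) := by
      rw [hq]
      field_simp
    rw [e]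
    have h1 : ((1 - δ) ^ 2)⁻¹ ≤ 1 + ε := by
      rw [inv_le_iff_one_le_mul₀ (by positivity)]
      linarith
    calc ((1 - δ) ^ 2)⁻¹ * (d / (a * L)) ≤ (1 + ε) * (d / (a * L)) :=
          mul_le_mul_of_nonneg_right h1 (by positivity)
      _ = (1 + ε) / a * (d / L) := by
          field_simp

end Pool.Agent.Helper60.GF
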