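import Pool.Agent.Helper25.GF.Goals

/-!
# Project GF (MP_766b49_co): the inequality for the elementary symmetric functions
-/

set_option autoImplicit false

namespace Pool.Agent.Helper60.GF

open Finset Pool.Agent.Helper25.GF

theorem esymm_succ (m : ℕ) (F : Finset ℕ) (x : ℕ → ℝ) :
    ((m : ℝ) + 1) * ∑ T ∈ F.powersetCard (m + 1), ∏ v ∈ T, x v =
      ∑ v ∈ F, x v * ∑ T ∈ (F.erase v).powersetCard m, ∏ u ∈ T, x u := by
  classical
  have h1 : ((m : ℝ) + 1) * ∑ T ∈ F.powersetCard (m + 1), ∏ v ∈ T, x v =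
      ∑ T ∈ F.powersetCard (m + 1), ∑ v ∈ T, x v * ∏ u ∈ T.erase v, x u := by
    rw [mul_sum]
    refine sum_congr rfl fun T hT => ?_
    rw [mem_powersetCard] at hT
    have h2 : ∀ v ∈ T, x v * ∏ u ∈ T.erase v, x u = ∏ u ∈ T, x u :=
      fun v hv => mul_prod_erase T x hv
    rw [sum_congr rfl h2, sum_const, hT.2, nsmul_eq_mul]
    push_cast
    ring
  rw [h1]
  have h3 : ∀ v ∈ F, x v * ∑ T ∈ (F.erase v).powersetCard m, ∏ u ∈ T, x u =
      ∑ T ∈ (F.erase v).powersetCard m, x v * ∏ u ∈ T, x u := fun v _ => mul_sum _ _ _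
  rw [sum_congr rfl h3, sum_sigma', sum_sigma']
  refine sum_nbij' (fun y => (⟨y.2, y.1.erase y.2⟩ : Σ _ : ℕ, Finset ℕ))
    (fun y => (⟨insert y.1 y.2, y.1⟩ : Σ _ : Finset ℕ, ℕ)) ?_ ?_ ?_ ?_ ?_
  · rintro ⟨T, v⟩ h
    simp only [mem_sigma, mem_powersetCard] at h ⊢
    refine ⟨h.1.1 h.2, erase_subset_erase v h.1.1, ?_⟩
    rw [card_erase_of_mem h.2, h.1.2]
    rfl
  · rintro ⟨v, T⟩ h
    simp only [mem_sigma, mem_powersetCard] at h ⊢
    have hv : v ∉ T := fun h' => (mem_erase.1 (h.2.1 h')).1 rfl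
    refine ⟨⟨?_, ?_⟩, mem_insert_self _ _⟩
    · intro u hu
      rcases mem_insert.1 hu with h' | h'
      · rw [h']; exact h.1
      · exact mem_of_mem_erase (h.2.1 h')
    · rw [card_insert_of_notMem hv, h.2.2]
  · rintro ⟨T, v⟩ h
    simp only [mem_sigma, mem_powersetCard] at h
    simp only [insert_erase h.2]
  · rintro ⟨v, T⟩ h
    simp only [mem_sigma, mem_powersetCard] at h
    have hv : v ∉ T := fun h' => (mem_erase.1 (h.2.1 h')).1 rfl
    simp only [erase_insert hv]
  · rintro ⟨T, v⟩ _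
    rfl

theorem gSYM : SYM := by
  classical
  intro m
  induction m with
  | zero =>
    intro F x κ _ _ _
    simp
  | succ m ih =>
    intro F x κ hx hκ hS
    set S : ℝ := ∑ v ∈ F, x v with hSdef
    have hnn : 0 ≤ S - (m + 1) * κ := by
      push_cast at hS
      linarith
    have hS0 : S - (m + 1) * κ ≤ S := by
      have : 0 ≤ ((m : ℝ) + 1) * κ := by positivity
      linarith
    have h1 : ∀ v ∈ F, (S - (m + 1) * κ) ^ m ≤
        (m.factorial : ℝ) * ∑ T ∈ (F.erase v).powersetCard m, ∏ u ∈ T, x u := by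
      intro v hv
      have hsum : ∑ u ∈ F.erase v, x u = S - x v := by
        rw [hSdef, ← sum_erase_add F x hv]
        ring
      have hxv := hx v hv
      have h2 := ih (F.erase v) x κ (fun u hu => hx u (mem_of_mem_erase hu)) hκ (by
        rw [hsum]
        push_cast at hS
        linarith)
      rw [hsum] at h2
      refine (pow_le_pow_left₀ hnn ?_ m).trans h2
      linarith
    have h3 : ((m + 1).factorial : ℝ) * ∑ T ∈ F.powersetCard (m + 1), ∏ v ∈ T, x v =
        ∑ v ∈ F, x v * ((m.factorial : ℝ) *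
          ∑ T ∈ (F.erase v).powersetCard m, ∏ u ∈ T, x u) := by
      rw [Nat.factorial_succ]
      push_cast
      have h4 := esymm_succ m F x
      calc ((m : ℝ) + 1) * (m.factorial : ℝ) * ∑ T ∈ F.powersetCard (m + 1), ∏ v ∈ T, x v
          = (m.factorial : ℝ) * (((m : ℝ) + 1) * ∑ T ∈ F.powersetCard (m + 1), ∏ v ∈ T, x v) := by
            ring
        _ = (m.factorial : ℝ) *
            ∑ v ∈ F, x v * ∑ T ∈ (F.erase v).powersetCard m, ∏ u ∈ T, x u := by rw [h4]
        _ = _ := by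
            rw [mul_sum]
            exact sum_congr rfl fun v _ => by ring
    rw [h3]
    have h5 : ∑ v ∈ F, x v * (S - (m + 1) * κ) ^ m ≤
        ∑ v ∈ F, x v * ((m.factorial : ℝ) *
          ∑ T ∈ (F.erase v).powersetCard m, ∏ u ∈ T, x u) :=
      sum_le_sum fun v hv => mul_le_mul_of_nonneg_left (h1 v hv) (hx v hv).1
    rw [← sum_mul, ← hSdef] at h5
    refine le_trans ?_ h5
    push_cast
    rw [pow_succ, mul_comm]
    exact mul_le_mul_of_nonneg_right hS0 (pow_nonneg hnn m)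

end Pool.Agent.Helper60.GF
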