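import Pool.Agent.Helper25.GF.Upper
import Pool.Agent.Helper60.GF.Sym
import Pool.Agent.Helper60.GF.Par

/-!
# Project GF (MP_766b49_co): the upper bound
-/

set_option autoImplicit false

namespace Pool.Agent.Helper60.GF

open Finset Pool.Agent.Helper25.GF Pool.Agent.Helper60.HC

variable {N : ℕ → Finset ℕ} {κ : ℝ}

theorem fact_choose_le (k m d : ℕ) (h : k ≤ d) :
    (m.factorial : ℝ) * (k.choose m : ℝ) ≤ (d : ℝ) ^ m := by
  have h1 : m.factorial * k.choose m = k.descFactorial m :=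
    (Nat.descFactorial_eq_factorial_mul_choose k m).symm
  have h2 : k.descFactorial m ≤ k ^ m := Nat.descFactorial_le_pow k m
  have h3 : k ^ m ≤ d ^ m := Nat.pow_le_pow_left h m
  have h4 : m.factorial * k.choose m ≤ d ^ m := by
    rw [h1]
    exact h2.trans h3
  exact_mod_cast h4

theorem ov_le (i r m : ℕ) (T : Finset ℕ) (hT : T ⊆ N i) (hc : T.card = m)
    (h1 : ∀ v ∈ N i, (N v ∩ N i).card = 0)
    (h2 : ∀ v ∈ N i, ∀ w ∈ N i, v < w → (N v ∩ N w).card ≤ r) :
    ov N (N i) T ≤ r * m ^ 2 := by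
  unfold ov
  have e1 : ∑ v ∈ T, (N v ∩ N i).card = 0 := sum_eq_zero fun v hv => h1 v (hT hv)
  have e2 : ∑ w ∈ T, ∑ v ∈ T.filter (· < w), (N v ∩ N w).card ≤ ∑ w ∈ T, m * r := by
    refine sum_le_sum fun w hw => ?_
    have e3 : ∑ v ∈ T.filter (· < w), (N v ∩ N w).card ≤ ∑ v ∈ T.filter (· < w), r :=
      sum_le_sum fun v hv => h2 v (hT (mem_filter.1 hv).1) w (hT hw) (mem_filter.1 hv).2
    refine e3.trans ?_
    rw [sum_const, smul_eq_mul]
    refine Nat.mul_le_mul_right r ?_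
    rw [← hc]
    exact card_le_card (filter_subset _ _)
  rw [e1, zero_add]
  refine e2.trans (le_of_eq ?_)
  rw [sum_const, smul_eq_mul, hc]
  ring

/-- The probability bound from the `m`-th moment. -/
theorem prob_bound_m (q : ℝ) (hκ : 0 < κ) (hκ1 : κ < 1) (hq : 0 < q)
    (hN : ∀ i, ∀ j ∈ N i, j < i) (lam : ℝ) (i d r m : ℕ) (hd : (N i).card ≤ d)
    (h1 : ∀ v ∈ N i, (N v ∩ N i).card = 0)
    (h2 : ∀ v ∈ N i, ∀ w ∈ N i, v < w → (N v ∩ N w).card ≤ r)
    (hD : m * κ < (1 - κ) * Real.log (κ / q))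
    (hlam : (d * q) ^ m * ((1 - κ)⁻¹) ^ (r * m ^ 2) ≤
        lam * ((1 - κ) * Real.log (κ / q) - m * κ) ^ m) :
    (1 - lam) * q ≤ EE N (fun _ => q) κ i (fun J => xx N (fun _ => q) κ i J) := by
  have hp : ∀ t : ℕ, 0 ≤ (fun _ : ℕ => q) t := fun _ => hq.le
  have hκ' : 0 < 1 - κ := by linarith
  have hc1 : 1 ≤ (1 - κ)⁻¹ := (one_le_inv₀ hκ').2 (by linarith)
  set D : ℝ := (1 - κ) * Real.log (κ / q) with hDdef
  have hDm : 0 < D - m * κ := by linarith
  have hpw : 0 < (D - m * κ) ^ m := pow_pos hDm m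
  have hpt : ∀ J, Ind N i J → q * MM N (fun _ => q) κ (N i) i J +
      (-(q / (D - m * κ) ^ m * m.factorial)) * ∑ T ∈ (N i).powersetCard m,
        MM N (fun _ => q) κ (N i) i J * ∏ v ∈ T, xx N (fun _ => q) κ v J ≤
      xx N (fun _ => q) κ i J := by
    intro J hJ
    have hM0 := MM_nonneg (N := N) (p := fun _ => q) hκ.le hκ1 (N i) i J
    have hx : ∀ v ∈ N i, 0 ≤ xx N (fun _ => q) κ v J ∧ xx N (fun _ => q) κ v J ≤ κ :=
      fun v _ => ⟨xx_nonneg hκ.le hκ1 hp v J, xx_le hκ.le v J⟩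
    have hS0 : 0 ≤ ∑ T ∈ (N i).powersetCard m, ∏ v ∈ T, xx N (fun _ => q) κ v J :=
      sum_nonneg fun T _ => prod_nonneg fun v _ => xx_nonneg hκ.le hκ1 hp v J
    have hfac : (0 : ℝ) ≤ m.factorial := Nat.cast_nonneg _
    rw [← mul_sum, xx_eq i J]
    split_ifs with h
    · have : 0 ≤ q / (D - m * κ) ^ m * m.factorial * (MM N (fun _ => q) κ (N i) i J *
          ∑ T ∈ (N i).powersetCard m, ∏ v ∈ T, xx N (fun _ => q) κ v J) :=
        mul_nonneg (mul_nonneg (div_pos hq hpw).le hfac) (mul_nonneg hM0 hS0)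
      linarith
    · push Not at h
      have h3 := MM_le_exp (N := N) hκ.le hκ1 hp (N i) i (hN i) J
      have h4 : κ / q < Real.exp ((∑ v ∈ N i, xx N (fun _ => q) κ v J) / (1 - κ)) := by
        refine lt_of_lt_of_le ?_ h3
        rw [div_lt_iff₀ hq]
        linarith
      have h5 : Real.log (κ / q) < (∑ v ∈ N i, xx N (fun _ => q) κ v J) / (1 - κ) :=
        (Real.log_lt_iff_lt_exp (div_pos hκ hq)).2 h4
      rw [lt_div_iff₀ hκ'] at h5
      have h6 : D ≤ ∑ v ∈ N i, xx N (fun _ => q) κ v J := by rw [hDdef]; linarith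
      have h7 := gSYM m (N i) (fun v => xx N (fun _ => q) κ v J) κ hx hκ.le (by
        linarith)
      have h8 : (D - m * κ) ^ m ≤ (m.factorial : ℝ) *
          ∑ T ∈ (N i).powersetCard m, ∏ v ∈ T, xx N (fun _ => q) κ v J :=
        (pow_le_pow_left₀ hDm.le (by linarith) m).trans h7
      have h9 : 1 ≤ ((m.factorial : ℝ) *
          ∑ T ∈ (N i).powersetCard m, ∏ v ∈ T, xx N (fun _ => q) κ v J) / (D - m * κ) ^ m := by
        rw [le_div_iff₀ hpw]
        linarith
      have h10 : q * MM N (fun _ => q) κ (N i) i J * 1 ≤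
          q * MM N (fun _ => q) κ (N i) i J * (((m.factorial : ℝ) *
          ∑ T ∈ (N i).powersetCard m, ∏ v ∈ T, xx N (fun _ => q) κ v J) / (D - m * κ) ^ m) :=
        mul_le_mul_of_nonneg_left h9 (mul_nonneg hq.le hM0)
      have h11 : q * MM N (fun _ => q) κ (N i) i J * (((m.factorial : ℝ) *
          ∑ T ∈ (N i).powersetCard m, ∏ v ∈ T, xx N (fun _ => q) κ v J) / (D - m * κ) ^ m) =
          q / (D - m * κ) ^ m * m.factorial * (MM N (fun _ => q) κ (N i) i J *
          ∑ T ∈ (N i).powersetCard m, ∏ v ∈ T, xx N (fun _ => q) κ v J) := by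
        field_simp
      linarith
  have k1 := EE_mono hκ.le hκ1 hp hN i _ _ hpt
  rw [EE_add, EE_const_mul, EE_const_mul, EE_sum, EE_MM hκ.le hκ1 hp hN] at k1
  have k2 : ∀ T ∈ (N i).powersetCard m,
      EE N (fun _ => q) κ i (fun J => MM N (fun _ => q) κ (N i) i J *
        ∏ v ∈ T, xx N (fun _ => q) κ v J) ≤ q ^ m * ((1 - κ)⁻¹) ^ (r * m ^ 2) := by
    intro T hT
    rw [mem_powersetCard] at hT
    have hTi : ∀ v ∈ T, v < i := fun v hv => hN i v (hT.1 hv)
    refine (moment hκ.le hκ1 hp hN T (N i) i hTi).trans ?_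
    rw [prod_const, hT.2]
    refine mul_le_mul_of_nonneg_left ?_ (pow_nonneg hq.le m)
    exact pow_le_pow_right₀ hc1 (ov_le i r m T hT.1 hT.2 h1 h2)
  have k3 : ∑ T ∈ (N i).powersetCard m,
      EE N (fun _ => q) κ i (fun J => MM N (fun _ => q) κ (N i) i J *
        ∏ v ∈ T, xx N (fun _ => q) κ v J) ≤
      ((N i).card.choose m : ℝ) * (q ^ m * ((1 - κ)⁻¹) ^ (r * m ^ 2)) := by
    refine (sum_le_sum k2).trans (le_of_eq ?_)
    rw [sum_const, card_powersetCard, nsmul_eq_mul]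
  have hinv : 0 ≤ ((1 - κ)⁻¹) ^ (r * m ^ 2) := pow_nonneg (by linarith) _
  have k4 : (m.factorial : ℝ) * (((N i).card.choose m : ℝ) *
      (q ^ m * ((1 - κ)⁻¹) ^ (r * m ^ 2))) ≤ lam * (D - m * κ) ^ m := by
    refine le_trans ?_ hlam
    calc (m.factorial : ℝ) * (((N i).card.choose m : ℝ) *
          (q ^ m * ((1 - κ)⁻¹) ^ (r * m ^ 2)))
        = ((m.factorial : ℝ) * ((N i).card.choose m : ℝ)) *
          (q ^ m * ((1 - κ)⁻¹) ^ (r * m ^ 2)) := by ring
      _ ≤ (d : ℝ) ^ m * (q ^ m * ((1 - κ)⁻¹) ^ (r * m ^ 2)) :=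
          mul_le_mul_of_nonneg_right (fact_choose_le _ m d hd)
            (mul_nonneg (pow_nonneg hq.le m) hinv)
      _ = (d * q) ^ m * ((1 - κ)⁻¹) ^ (r * m ^ 2) := by rw [mul_pow]; ring
  have k5 : q / (D - m * κ) ^ m * m.factorial * ∑ T ∈ (N i).powersetCard m,
      EE N (fun _ => q) κ i (fun J => MM N (fun _ => q) κ (N i) i J *
        ∏ v ∈ T, xx N (fun _ => q) κ v J) ≤ lam * q := by
    calc q / (D - m * κ) ^ m * m.factorial * ∑ T ∈ (N i).powersetCard m,
          EE N (fun _ => q) κ i (fun J => MM N (fun _ => q) κ (N i) i J *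
            ∏ v ∈ T, xx N (fun _ => q) κ v J)
        ≤ q / (D - m * κ) ^ m * m.factorial * (((N i).card.choose m : ℝ) *
          (q ^ m * ((1 - κ)⁻¹) ^ (r * m ^ 2))) :=
          mul_le_mul_of_nonneg_left k3 (mul_nonneg (div_pos hq hpw).le (Nat.cast_nonneg _))
      _ = q / (D - m * κ) ^ m * ((m.factorial : ℝ) * (((N i).card.choose m : ℝ) *
          (q ^ m * ((1 - κ)⁻¹) ^ (r * m ^ 2)))) := by ring
      _ ≤ q / (D - m * κ) ^ m * (lam * (D - m * κ) ^ m) :=
          mul_le_mul_of_nonneg_left k4 (div_pos hq hpw).le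
      _ = lam * q := by field_simp
  linarith

/-- The distribution of the random independent set. -/
theorem exists_distribution_m (n : ℕ) (q : ℝ) (hκ : 0 < κ) (hκ1 : κ < 1) (hq : 0 < q)
    (hN : ∀ i, ∀ j ∈ N i, j < i) (lam : ℝ)
    (hpb : ∀ i < n, (1 - lam) * q ≤
      EE N (fun _ => q) κ i (fun J => xx N (fun _ => q) κ i J)) :
    ∃ w : Finset ℕ → ℝ, (∀ J, 0 ≤ w J) ∧ (∀ J, w J ≠ 0 → Ind N n J) ∧
      ∑ J ∈ (range n).powerset, w J = 1 ∧
      ∀ i < n, (1 - lam) * q ≤ ∑ J ∈ (range n).powerset.filter (fun J => i ∈ J), w J := by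
  have hp : ∀ t : ℕ, 0 ≤ (fun _ : ℕ => q) t := fun _ => hq.le
  refine ⟨fun J => EE N (fun _ => q) κ n (fun J' => if J' = J then 1 else 0), ?_, ?_, ?_, ?_⟩
  · intro J
    have h := EE_mono hκ.le hκ1 hp hN n (fun _ => 0) (fun J' => if J' = J then 1 else 0)
      (fun J' _ => by beta_reduce; split_ifs <;> norm_num)
    rwa [EE_const] at h
  · intro J hJ
    by_contra hI
    refine hJ ?_
    have h := EE_congr hκ.le hκ1 hp hN n (fun J' => if J' = J then 1 else 0) (fun _ => 0)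
      (fun J' hJ' => by
        have hne : J' ≠ J := fun e => hI (e ▸ hJ')
        simp [hne])
    beta_reduce
    rw [h, EE_const]
  · rw [← EE_sum]
    have h := EE_congr hκ.le hκ1 hp hN n
      (fun J' => ∑ J ∈ (range n).powerset, if J' = J then (1 : ℝ) else 0) (fun _ => 1)
      (fun J' hJ' => by
        beta_reduce
        rw [Finset.sum_ite_eq, if_pos (Finset.mem_powerset.2 hJ'.1)])
    rw [h, EE_const]
  · intro i hi
    refine (hpb i hi).trans ?_
    rw [← EE_sum]
    have h := EE_congr hκ.le hκ1 hp hN n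
      (fun J' => ∑ J ∈ (range n).powerset.filter (fun J => i ∈ J), if J' = J then (1 : ℝ) else 0)
      (fun J' => if i ∈ J' then (1 : ℝ) else 0)
      (fun J' hJ' => by
        beta_reduce
        rw [Finset.sum_ite_eq]
        simp only [Finset.mem_filter, Finset.mem_powerset, hJ'.1, true_and])
    rw [h]
    have hst := EE_stable hκ.le hκ1 hp hN (i + 1) (fun J' => if i ∈ J' then (1 : ℝ) else 0)
      (fun t ht J _ => by
        beta_reduce
        simp only [mem_insert_lt t J i (by omega)]) n hi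
    rw [hst]
    show _ ≤ EE N (fun _ => q) κ i _
    refine EE_mono hκ.le hκ1 hp hN i _ _ fun J hJ => ?_
    have htJ := not_mem_of_subset_range hJ.1
    simp [htJ]

open Classical in
/-- Fractional colourings from an ordering, small codegrees. -/
theorem exists_weights_m {V : Type} [Fintype V] (G : SimpleGraph V) (ord : V → ℕ)
    (hinj : Function.Injective ord) (hn : ∀ v, ord v < Fintype.card V) (κ q lam : ℝ) (hκ : 0 < κ)
    (hκ1 : κ < 1) (hq : 0 < q) (hlam : lam < 1) (d r m : ℕ)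
    (hdeg : ∀ u : V, (univ.filter (fun v => G.Adj u v ∧ ord v < ord u)).card ≤ d)
    (htri : ∀ u v w : V, G.Adj u v → G.Adj u w → ¬ G.Adj v w)
    (hcod : ∀ u v : V, u ≠ v → (univ.filter (fun w => G.Adj u w ∧ G.Adj v w)).card ≤ r)
    (hD : m * κ < (1 - κ) * Real.log (κ / q))
    (hlamb : (d * q) ^ m * ((1 - κ)⁻¹) ^ (r * m ^ 2) ≤
        lam * ((1 - κ) * Real.log (κ / q) - m * κ) ^ m) :
    ∃ w : Finset V → ℝ, (∀ I, 0 ≤ w I) ∧
        (∀ I, w I ≠ 0 → G.IsIndepSet (I : Set V)) ∧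
        (∀ v : V, 1 ≤ ∑ I ∈ Finset.univ.filter (fun I : Finset V => v ∈ I), w I) ∧
        ∑ I, w I ≤ ((1 - lam) * q)⁻¹ := by
  set n : ℕ := Fintype.card V with hndef
  set N : ℕ → Finset ℕ := fun i =>
    (univ.filter (fun v : V => ∃ u : V, ord u = i ∧ G.Adj u v ∧ ord v < ord u)).image ord with hN
  have hNmem : ∀ (i j : ℕ), j ∈ N i ↔ ∃ u v : V, ord u = i ∧ ord v = j ∧ G.Adj u v ∧
      ord v < ord u := by
    intro i j
    rw [hN]
    simp only [Finset.mem_image, Finset.mem_filter, Finset.mem_univ, true_and]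
    constructor
    · rintro ⟨v, ⟨u, hu, hadj, hlt⟩, hv⟩
      exact ⟨u, v, hu, hv, hadj, hlt⟩
    · rintro ⟨u, v, hu, hv, hadj, hlt⟩
      exact ⟨v, ⟨u, hu, hadj, hlt⟩, hv⟩
  have hNlt : ∀ i, ∀ j ∈ N i, j < i := by
    intro i j hj
    obtain ⟨u, v, hu, hv, _, hlt⟩ := (hNmem i j).1 hj
    omega
  have hNord : ∀ u : V, N (ord u) =
      (univ.filter (fun v => G.Adj u v ∧ ord v < ord u)).image ord := by
    intro u
    ext j
    rw [hNmem]
    simp only [Finset.mem_image, Finset.mem_filter, Finset.mem_univ, true_and]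
    constructor
    · rintro ⟨u', v, hu, hv, hadj, hlt⟩
      have := hinj hu
      subst this
      exact ⟨v, ⟨hadj, hlt⟩, hv⟩
    · rintro ⟨v, ⟨hadj, hlt⟩, hv⟩
      exact ⟨u, v, rfl, hv, hadj, hlt⟩
  -- the probability bound
  have hpb : ∀ i < n, (1 - lam) * q ≤
      EE N (fun _ => q) κ i (fun J => xx N (fun _ => q) κ i J) := by
    intro i _
    refine prob_bound_m q hκ hκ1 hq hNlt lam i d r m ?_ ?_ ?_ hD hlamb
    · by_cases hi : N i = ∅
      · rw [hi, card_empty]
        exact Nat.zero_le _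
      · obtain ⟨j, hj⟩ := Finset.nonempty_iff_ne_empty.2 hi
        obtain ⟨u, v, hu, _⟩ := (hNmem i j).1 hj
        rw [← hu, hNord]
        exact card_image_le.trans (hdeg u)
    · intro j hj
      rw [card_eq_zero]
      refine eq_empty_of_forall_notMem fun k hk => ?_
      rw [mem_inter] at hk
      obtain ⟨u, v, hu, hv, hadj, _⟩ := (hNmem i j).1 hj
      obtain ⟨v', w, hv', hw, hadj', _⟩ := (hNmem j k).1 hk.1
      obtain ⟨u', w', hu', hw', hadj'', _⟩ := (hNmem i k).1 hk.2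
      have e1 : v' = v := hinj (hv'.trans hv.symm)
      have e2 : u' = u := hinj (hu'.trans hu.symm)
      have e3 : w' = w := hinj (hw'.trans hw.symm)
      rw [e1] at hadj'
      rw [e2, e3] at hadj''
      exact htri u v w hadj hadj'' hadj'
    · intro j hj k hk hjk
      obtain ⟨u, v, hu, hv, hadj, _⟩ := (hNmem i j).1 hj
      obtain ⟨u', w, hu', hw, hadj', _⟩ := (hNmem i k).1 hk
      have hvw : v ≠ w := by
        intro h
        rw [h, hw] at hv
        omega
      refine le_trans ?_ (hcod v w hvw)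
      rw [← hv, ← hw, hNord, hNord, ← Finset.image_inter _ _ hinj]
      refine card_image_le.trans (card_le_card ?_)
      intro x hx
      simp only [mem_inter, mem_filter, mem_univ, true_and] at hx ⊢
      exact ⟨hx.1.1, hx.2.1⟩
  obtain ⟨μ, hμ0, hμ1, hμ2, hμ3⟩ := exists_distribution_m (N := N) n q hκ hκ1
    hq hNlt lam hpb
  -- the image of the ordering
  have himg : (univ : Finset V).image ord = range n := by
    refine Finset.eq_of_subset_of_card_le ?_ ?_
    · intro i hi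
      obtain ⟨v, _, rfl⟩ := Finset.mem_image.1 hi
      exact Finset.mem_range.2 (hn v)
    · rw [Finset.card_image_of_injective _ hinj, Finset.card_range, Finset.card_univ]
  have hback : ∀ J ∈ (range n).powerset, (univ.filter fun v => ord v ∈ J).image ord = J := by
    intro J hJ
    rw [Finset.mem_powerset] at hJ
    ext i
    simp only [Finset.mem_image, Finset.mem_filter, Finset.mem_univ, true_and]
    constructor
    · rintro ⟨v, hv, rfl⟩
      exact hv
    · intro hi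
      have h1 := hJ hi
      rw [← himg] at h1
      obtain ⟨v, _, rfl⟩ := Finset.mem_image.1 h1
      exact ⟨v, hi, rfl⟩
  have hforth : ∀ I : Finset V, (univ.filter fun v => ord v ∈ I.image ord) = I := by
    intro I
    ext v
    simp only [Finset.mem_image, Finset.mem_filter, Finset.mem_univ, true_and]
    constructor
    · rintro ⟨w, hw, h⟩
      rwa [hinj h] at hw
    · exact fun hv => ⟨v, hv, rfl⟩
  have hIm : ∀ I : Finset V, I.image ord ∈ (range n).powerset := by
    intro I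
    rw [Finset.mem_powerset, ← himg]
    exact Finset.image_subset_image (Finset.subset_univ I)
  have hS1 : ∑ I : Finset V, μ (I.image ord) = 1 := by
    rw [← hμ2]
    refine Finset.sum_nbij' (fun I => I.image ord) (fun J => univ.filter fun v => ord v ∈ J)
      (fun I _ => hIm I) (fun J _ => Finset.mem_univ _) (fun I _ => hforth I) hback
      (fun I _ => rfl)
  have hS2 : ∀ v : V, (1 - lam) * q ≤
      ∑ I ∈ Finset.univ.filter (fun I : Finset V => v ∈ I), μ (I.image ord) := by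
    intro v
    refine (hμ3 (ord v) (hn v)).trans (le_of_eq ?_)
    symm
    refine Finset.sum_nbij' (fun I => I.image ord) (fun J => univ.filter fun v => ord v ∈ J)
      ?_ ?_ (fun I _ => hforth I) (fun J hJ => hback J (Finset.mem_filter.1 hJ).1)
      (fun I _ => rfl)
    · intro I hI
      exact Finset.mem_filter.2 ⟨hIm I, Finset.mem_image_of_mem ord (Finset.mem_filter.1 hI).2⟩
    · intro J hJ
      refine Finset.mem_filter.2 ⟨Finset.mem_univ _, Finset.mem_filter.2 ⟨Finset.mem_univ _, ?_⟩⟩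
      exact (Finset.mem_filter.1 hJ).2
  have hc : 0 < (1 - lam) * q := mul_pos (by linarith) hq
  refine ⟨fun I => μ (I.image ord) * ((1 - lam) * q)⁻¹, ?_, ?_, ?_, ?_⟩
  · intro I
    exact mul_nonneg (hμ0 _) (inv_nonneg.2 hc.le)
  · intro I hI
    have h1 : μ (I.image ord) ≠ 0 := fun h => hI (by beta_reduce; rw [h, zero_mul])
    have h2 := (hμ1 _ h1).2
    intro a ha b hb hab hadj
    rcases lt_trichotomy (ord a) (ord b) with h | h | h
    · exact h2 (ord b) (Finset.mem_image_of_mem ord (Finset.mem_coe.1 hb)) (ord a)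
        ((hNmem _ _).2 ⟨b, a, rfl, rfl, hadj.symm, h⟩)
        (Finset.mem_image_of_mem ord (Finset.mem_coe.1 ha))
    · exact hab (hinj h)
    · exact h2 (ord a) (Finset.mem_image_of_mem ord (Finset.mem_coe.1 ha)) (ord b)
        ((hNmem _ _).2 ⟨a, b, rfl, rfl, hadj, h⟩)
        (Finset.mem_image_of_mem ord (Finset.mem_coe.1 hb))
  · intro v
    rw [← Finset.sum_mul, ← div_eq_mul_inv, one_le_div hc]
    exact hS2 v
  · rw [← Finset.sum_mul, hS1, one_mul]

/-- **The upper bound.** -/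
theorem upp : UPP := by
  classical
  intro θ ε hθ0 hθ1 hε
  obtain ⟨m, d₀, hd₀2, hd₀⟩ := gPAR θ ε hθ0 hθ1 hε
  refine ⟨d₀, hd₀2, fun d hd V hV G hG hcod hdeg => ?_⟩
  obtain ⟨κ, q, lam, hκ, hκ1, hq, _, _, hlam, hD, hlamb, hfin⟩ := hd₀ d hd
  obtain ⟨ord, hinj, hn, hQ⟩ := exists_order
    (Q := fun (v : V) (S : Finset V) => ∀ B : Finset V, (∀ u ∈ B, u ∈ S ∧ G.Adj v u) →
      B.card ≤ d) hdeg (Fintype.card V) univ rfl
  have hinj' : Function.Injective ord := by
    intro a b hab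
    exact hinj (by simp) (by simp) hab
  have k1 : ∀ u : V, (univ.filter (fun v => G.Adj u v ∧ ord v < ord u)).card ≤ d := by
    intro u
    refine hQ u (mem_univ u) _ fun v hv => ?_
    simp only [mem_filter, mem_univ, true_and] at hv ⊢
    exact ⟨hv.2.le, hv.1⟩
  have k2 : ∀ u v w : V, G.Adj u v → G.Adj u w → ¬ G.Adj v w := by
    intro u v w' h1 h2 h3
    exact hG {u, v, w'} (SimpleGraph.is3Clique_triple_iff.2 ⟨h1, h2, h3⟩)
  have k3 : ∀ u v : V, u ≠ v → (univ.filter (fun w => G.Adj u w ∧ G.Adj v w)).card ≤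
      ⌊(d : ℝ) ^ θ⌋₊ := by
    intro u v huv
    refine Nat.le_floor (hcod u v huv _ fun x hx => ?_)
    simpa using hx
  obtain ⟨w, hw0, hw1, hw2, hw3⟩ := exists_weights_m G ord hinj' (fun v => hn v (mem_univ v))
    κ q lam hκ hκ1 hq hlam d ⌊(d : ℝ) ^ θ⌋₊ m k1 k2 k3 hD
    (hlamb _ (Nat.floor_le (Real.rpow_nonneg (Nat.cast_nonneg d) θ)))
  refine ⟨w, hw0, hw1, ?_, hw3.trans hfin⟩
  intro v F hF
  have e : F = univ.filter (fun I : Finset V => v ∈ I) := by
    ext I
    rw [hF I]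
    simp
  rw [e]
  exact hw2 v

end Pool.Agent.Helper60.GF
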